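import Pool.Agent.W289.CG.Stm

/-!
# Ideal solutions of the Prouhet-Tarry-Escott problem
-/

set_option autoImplicit false

open Polynomial

namespace Pool.Agent.W21.CG

open Pool.Agent.W289.CG

theorem eval_pA {n : ℕ} (a : Fin n → ℤ) (x : ℤ) : (pA a).eval x = ∏ i, (x - a i) := by
  unfold pA
  rw [eval_prod]
  simp

theorem eval_der {n : ℕ} (a : Fin n → ℤ) (x : ℤ) : (derivative (pA a)).eval x =
    ∑ i, ∏ l ∈ Finset.univ.erase i, (x - a l) := by
  unfold pA
  rw [derivative_prod_finset, eval_finsetSum]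
  refine Finset.sum_congr rfl fun i _ => ?_
  rw [derivative_X_sub_C, mul_one, eval_prod]
  simp

/-- the conditions on the data -/
def Chk {n k : ℕ} (a : Fin n → ℤ) (b : Fin k → ℤ) (c : ℤ) : Prop :=
  Function.Injective a ∧ Function.Injective b ∧ 0 < c ∧ (∀ j, ∏ i, (b j - a i) = c) ∧
    (∀ j, ∑ i, ∏ l ∈ Finset.univ.erase i, (b j - a l) ≠ 0) ∧ ∀ j, ∃ i, b j < a i

theorem mk {n k : ℕ} {a : Fin n → ℤ} {b : Fin k → ℤ} {c : ℤ} (h : Chk a b c) :
    Nonempty (Dat n k) :=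
  ⟨{ a := a
     b := b
     c := c
     ha := h.1
     hb := h.2.1
     hc := h.2.2.1
     hab := fun j => by rw [eval_pA]; exact h.2.2.2.1 j
     hder := fun j => by rw [eval_der]; exact h.2.2.2.2.1 j
     hlt := h.2.2.2.2.2 }⟩

theorem d2 : Chk (![1, 2] : Fin 2 → ℤ) (![0] : Fin 1 → ℤ) 2 := by
  unfold Chk
  decide +kernel

theorem d3 : Chk (![1, 5, 6] : Fin 3 → ℤ) (![2, 3] : Fin 2 → ℤ) 12 := by
  unfold Chk
  decide +kernel

theorem d4 : Chk (![1, 2, 9, 10] : Fin 4 → ℤ) (![0, 4, 7] : Fin 3 → ℤ) 180 := by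
  unfold Chk
  decide +kernel

theorem d5 : Chk (![0, 4, 8, 16, 17] : Fin 5 → ℤ) (![1, 2, 10, 14] : Fin 4 → ℤ) 5040 := by
  unfold Chk
  decide +kernel

theorem d6 : Chk (![1, 2, 10, 12, 20, 21] : Fin 6 → ℤ) (![0, 5, 6, 16, 17] : Fin 5 → ℤ) 100800 := by
  unfold Chk
  decide +kernel

theorem d7 : Chk (![0, 18, 27, 58, 64, 89, 101] : Fin 7 → ℤ) (![1, 13, 38, 44, 75, 84] : Fin 6 → ℤ) 13967553600 := by
  unfold Chk
  decide +kernel

theorem d8 : Chk (![1, 2, 11, 20, 30, 39, 48, 49] : Fin 8 → ℤ) (![0, 4, 9, 23, 27, 41, 46] : Fin 7 → ℤ) 1210809600 := by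
  unfold Chk
  decide +kernel

theorem d9 : Chk (![0, 24, 30, 83, 86, 133, 157, 181, 197] : Fin 9 → ℤ) (![1, 17, 41, 65, 112, 115, 168, 174] : Fin 8 → ℤ) 3377425033382400 := by
  unfold Chk
  decide +kernel

theorem d10 : Chk (![12, -12, 11881, -11881, 20231, -20231, 20885, -20885, 23738, -23738] : Fin 10 → ℤ) (![-23750, -20667, -20449, -11857, -436, 436, 11857, 20449, 20667] : Fin 9 → ℤ) 2690412768074211426290642227627411814400 := by
  unfold Chk
  decide +kernel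

theorem d12 : Chk (![35, -35, 47, -47, 94, -94, 121, -121, 146, -146, 148, -148] : Fin 12 → ℤ) (![-151, -140, -127, -86, -61, -22, 22, 61, 86, 127, 140] : Fin 11 → ℤ) 67440294559676054016000 := by
  unfold Chk
  decide +kernel

theorem d11 : Chk (![520, -195, -325, 273, -273, 364, -364, 490, -945, -175, -280] : Fin 11 → ℤ) (![-455, 0, 455] : Fin 3 → ℤ) 7383688148984988204000000000 := by
  unfold Chk
  decide +kernel

theorem small : TaskSmall := by
  rintro n (rfl | rfl | rfl | rfl | rfl | rfl | rfl | rfl | rfl | rfl)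
  exacts [mk d2, mk d3, mk d4, mk d5, mk d6, mk d7, mk d8, mk d9, mk d10, mk d12]

theorem eleven : Nonempty (Dat 11 3) := mk d11

end Pool.Agent.W21.CG
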